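import Pool.Agent.X105.Thick

set_option autoImplicit false

namespace Pool.Agent.Results.MP_4ff6b6_an.NonlinearPatterns

open Set Filter Topology

/-- A Cantor set: a nonempty, compact, perfect, totally disconnected set of real numbers. -/
def IsCantor (K : Set ℝ) : Prop :=
  K.Nonempty ∧ IsCompact K ∧ Perfect K ∧ IsTotallyDisconnected K

/-- `(p, q)` is a bounded gap of `K` (a bounded component of the complement of `K`): its end
points belong to `K`, and no point between them does. -/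
def IsGap (K : Set ℝ) (p q : ℝ) : Prop :=
  p ∈ K ∧ q ∈ K ∧ p < q ∧ ∀ z, p < z → z < q → z ∉ K

/-- The length of the bridge at the right end point `q` of the gap `(p, q)`: the bridge is the
largest interval `[q, v]`, `v ∈ K`, which contains no gap of length at least `q - p`. -/
noncomputable def rightBridge (K : Set ℝ) (p q : ℝ) : ℝ :=
  sSup {v : ℝ | v ∈ K ∧ q ≤ v ∧
    ∀ p' q', IsGap K p' q' → q ≤ p' → q' ≤ v → q' - p' < q - p} - q

/-- The length of the bridge at the left end point `p` of the gap `(p, q)`. -/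
noncomputable def leftBridge (K : Set ℝ) (p q : ℝ) : ℝ :=
  p - sInf {w : ℝ | w ∈ K ∧ w ≤ p ∧
    ∀ p' q', IsGap K p' q' → w ≤ p' → q' ≤ p → q' - p' < q - p}

/-- The Newhouse thickness: the infimum of the quotients bridge length / gap length over both
end points of all bounded gaps. -/
noncomputable def thickness (K : Set ℝ) : ℝ :=
  sInf {τ : ℝ | ∃ p q, IsGap K p q ∧
    (τ = rightBridge K p q / (q - p) ∨ τ = leftBridge K p q / (q - p))}

/-- Variant of `rightBridge`: the bridge may contain gaps of length equal to `q - p`. -/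
noncomputable def rightBridge' (K : Set ℝ) (p q : ℝ) : ℝ :=
  sSup {v : ℝ | v ∈ K ∧ q ≤ v ∧
    ∀ p' q', IsGap K p' q' → q ≤ p' → q' ≤ v → q' - p' ≤ q - p} - q

/-- Variant of `leftBridge`: the bridge may contain gaps of length equal to `q - p`. -/
noncomputable def leftBridge' (K : Set ℝ) (p q : ℝ) : ℝ :=
  p - sInf {w : ℝ | w ∈ K ∧ w ≤ p ∧
    ∀ p' q', IsGap K p' q' → w ≤ p' → q' ≤ p → q' - p' ≤ q - p}

/-- The thickness with the variant of the bridges. -/
noncomputable def thickness' (K : Set ℝ) : ℝ :=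
  sInf {τ : ℝ | ∃ p q, IsGap K p q ∧
    (τ = rightBridge' K p q / (q - p) ∨ τ = leftBridge' K p q / (q - p))}

/-- `K` contains patterns `{x - t, x, x + f t}` with arbitrarily small `t > 0`. -/
def HasPatterns (K : Set ℝ) (f : ℝ → ℝ) : Prop :=
  ∀ δ : ℝ, 0 < δ → ∃ x t : ℝ, 0 < t ∧ t < δ ∧ 0 < f t ∧ x - t ∈ K ∧ x ∈ K ∧ x + f t ∈ K

theorem thickC_of_thickness {K : Set ℝ} (hK : IsCompact K) {c : ℝ}
    (h : c < thickness K) : Agent.X105.Thick.ThickC K c := by
  have hbdd : BddBelow {τ : ℝ | ∃ p q, IsGap K p q ∧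
    (τ = rightBridge K p q / (q - p) ∨ τ = leftBridge K p q / (q - p))} := by
    refine ⟨0, ?_⟩
    rintro τ ⟨p, q, hg, rfl | rfl⟩
    · apply div_nonneg _ (by linarith [hg.2.2.1])
      have : q ≤ sSup {v : ℝ | v ∈ K ∧ q ≤ v ∧
          ∀ p' q', IsGap K p' q' → q ≤ p' → q' ≤ v → q' - p' < q - p} := by
        apply le_csSup (hK.bddAbove.mono fun v hv => hv.1)
        exact ⟨hg.2.1, le_rfl, fun p' q' hg' h1 h2 => absurd hg'.2.2.1 (by linarith)⟩
      unfold rightBridge
      linarith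
    · apply div_nonneg _ (by linarith [hg.2.2.1])
      have : sInf {w : ℝ | w ∈ K ∧ w ≤ p ∧
          ∀ p' q', IsGap K p' q' → w ≤ p' → q' ≤ p → q' - p' < q - p} ≤ p := by
        apply csInf_le (hK.bddBelow.mono fun v hv => hv.1)
        exact ⟨hg.1, le_rfl, fun p' q' hg' h1 h2 => absurd hg'.2.2.1 (by linarith)⟩
      unfold leftBridge
      linarith
  intro p q hg
  have hpq : 0 < q - p := by linarith [hg.2.2.1]
  constructor
  · have h1 : c < rightBridge K p q / (q - p) :=
      lt_of_lt_of_le h (csInf_le hbdd ⟨p, q, hg, Or.inl rfl⟩)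
    rw [lt_div_iff₀ hpq] at h1
    have h2 : q + c * (q - p) < sSup {v : ℝ | v ∈ K ∧ q ≤ v ∧
          ∀ p' q', IsGap K p' q' → q ≤ p' → q' ≤ v → q' - p' < q - p} := by
      unfold rightBridge at h1
      linarith
    have hne : {v : ℝ | v ∈ K ∧ q ≤ v ∧
          ∀ p' q', IsGap K p' q' → q ≤ p' → q' ≤ v → q' - p' < q - p}.Nonempty :=
      ⟨q, hg.2.1, le_rfl, fun p' q' hg' h1 h2 => absurd hg'.2.2.1 (by linarith)⟩
    obtain ⟨v, hv, hlt⟩ := exists_lt_of_lt_csSup hne h2
    exact ⟨v, hv.1, hlt.le, hv.2.2⟩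
  · have h1 : c < leftBridge K p q / (q - p) :=
      lt_of_lt_of_le h (csInf_le hbdd ⟨p, q, hg, Or.inr rfl⟩)
    rw [lt_div_iff₀ hpq] at h1
    have h2 : sInf {w : ℝ | w ∈ K ∧ w ≤ p ∧
          ∀ p' q', IsGap K p' q' → w ≤ p' → q' ≤ p → q' - p' < q - p} < p - c * (q - p) := by
      unfold leftBridge at h1
      linarith
    have hne : {w : ℝ | w ∈ K ∧ w ≤ p ∧
          ∀ p' q', IsGap K p' q' → w ≤ p' → q' ≤ p → q' - p' < q - p}.Nonempty :=
      ⟨p, hg.1, le_rfl, fun p' q' hg' h1 h2 => absurd hg'.2.2.1 (by linarith)⟩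
    obtain ⟨v, hv, hlt⟩ := exists_lt_of_csInf_lt hne h2
    exact ⟨v, hv.1, hlt.le, hv.2.2⟩

theorem acc_right {K : Set ℝ} (hK : Perfect K) {p q : ℝ} (hg : IsGap K p q) {ρ : ℝ}
    (hρ : 0 < ρ) : ∃ b ∈ K, q < b ∧ b < q + ρ := by
  have hacc := hK.acc q hg.2.1
  rw [accPt_iff_nhds] at hacc
  have hpq := hg.2.2.1
  obtain ⟨y, ⟨hy1, hyK⟩, hne⟩ := hacc (Ioo (q - min ρ (q - p)) (q + min ρ (q - p)))
    (Ioo_mem_nhds (by linarith [lt_min hρ (show 0 < q - p by linarith)])
      (by linarith [lt_min hρ (show 0 < q - p by linarith)]))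
  have h1 := min_le_left ρ (q - p)
  have h2 := min_le_right ρ (q - p)
  refine ⟨y, hyK, ?_, by linarith [hy1.2]⟩
  by_contra hle
  push Not at hle
  exact hg.2.2.2 y (by linarith [hy1.1]) (lt_of_le_of_ne hle hne) hyK

theorem exists_notMem {K : Set ℝ} (hK : IsTotallyDisconnected K) {a b : ℝ}
    (hab : a < b) : ∃ z, a ≤ z ∧ z ≤ b ∧ z ∉ K := by
  by_contra hno
  push Not at hno
  have hsub : Icc a b ⊆ K := fun z hz => hno z hz.1 hz.2
  have := hK (Icc a b) hsub isPreconnected_Icc (left_mem_Icc.2 hab.le) (right_mem_Icc.2 hab.le)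
  exact hab.ne this

theorem gap_between {K : Set ℝ} (hK : IsCantor K) {a b : ℝ} (ha : a ∈ K) (hb : b ∈ K)
    (hab : a < b) : ∃ p q, IsGap K p q ∧ a ≤ p ∧ q ≤ b := by
  obtain ⟨z, h1, h2, h3⟩ := exists_notMem hK.2.2.2 hab
  obtain ⟨p, q, hg, h4, _, _, h5⟩ := Agent.X105.Thick.exists_gap hK.2.1.isClosed ha hb h1 h2 h3
  exact ⟨p, q, hg, h4, h5⟩

theorem main {K : Set ℝ} (hK : IsCantor K) (hτ : 1 < thickness K) {f : ℝ → ℝ}
    (hf : ContDiff ℝ 1 f) (f0 : f 0 = 0) (hd : 0 < deriv f 0) : HasPatterns K f := by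
  intro δ hδ
  obtain ⟨c, hc1, hc2⟩ := exists_between hτ
  have hthick := thickC_of_thickness hK.2.1 hc2
  set m := deriv f 0 with hm
  -- the distortion
  set η : ℝ := (c - 1) / (2 * (c + 1)) with hη
  have hη0 : 0 < η := div_pos (by linarith) (by linarith)
  have hηe : η * (2 * (c + 1)) = c - 1 := div_mul_cancel₀ _ (by linarith)
  have hη1 : η < 1 := by
    rw [hη, div_lt_one (by linarith)]; linarith
  have hηc : 1 < (1 - η) * c := by nlinarith
  have hηc' : 1 + η ≤ c := by nlinarith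
  have hηc2 : 1 + η < (1 - η) * c ^ 2 := by nlinarith
  -- strict differentiability
  have hsd : HasStrictDerivAt f m 0 := (hf.contDiffAt).hasStrictDerivAt one_ne_zero
  have hev := (hasStrictFDerivAt_iff_isLittleO.1 hsd.hasStrictFDerivAt).bound (mul_pos hd hη0)
  obtain ⟨r, hr0, hr⟩ := Metric.eventually_nhds_iff.1 hev
  have hbd : ∀ s t : ℝ, 0 ≤ s → s ≤ t → t < r →
      m * (1 - η) * (t - s) ≤ f t - f s ∧ f t - f s ≤ m * (1 + η) * (t - s) := by
    intro s t hs hst ht
    have h1 : dist (t, s) ((0 : ℝ), (0 : ℝ)) < r := by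
      rw [Prod.dist_eq, Real.dist_eq, Real.dist_eq, sub_zero, sub_zero, abs_of_nonneg hs,
        abs_of_nonneg (by linarith)]
      exact max_lt ht (by linarith)
    have h2 := hr h1
    simp only [Real.norm_eq_abs, ContinuousLinearMap.toSpanSingleton_apply, smul_eq_mul] at h2
    rw [abs_of_nonneg (show 0 ≤ t - s by linarith)] at h2
    have h3 := abs_le.1 h2
    constructor <;> nlinarith [h3.1, h3.2]
  set ρ := min r δ with hρ
  have hρ0 : 0 < ρ := lt_min hr0 hδ
  -- the gaps
  obtain ⟨x0, hx0⟩ := hK.1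
  have hacc := hK.2.2.1.acc x0 hx0
  rw [accPt_iff_nhds] at hacc
  obtain ⟨y0, ⟨_, hy0⟩, hne⟩ := hacc univ univ_mem
  obtain ⟨la, q1, hH1⟩ : ∃ p q, IsGap K p q := by
    rcases lt_or_gt_of_ne hne with h | h
    · obtain ⟨p, q, hg, _⟩ := gap_between hK hy0 hx0 h
      exact ⟨p, q, hg⟩
    · obtain ⟨p, q, hg, _⟩ := gap_between hK hx0 hy0 h
      exact ⟨p, q, hg⟩
  obtain ⟨b1, hb1, hb1', hb1''⟩ := acc_right hK.2.2.1 hH1 hρ0
  obtain ⟨p2, rb, hH2, hp2, hrb⟩ := gap_between hK hH1.2.1 hb1 hb1'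
  have hp2' : q1 < p2 := by
    rcases hp2.lt_or_eq with h | h
    · exact h
    · exfalso
      obtain ⟨b, hb, h1, h2⟩ := acc_right hK.2.2.1 hH1
        (show 0 < rb - p2 by linarith [hH2.2.2.1])
      exact hH2.2.2.2 b (by linarith) (by linarith) hb
  set ρ' := min (min (q1 - la) (rb - p2)) (p2 - q1) with hρ'
  have hρ'0 : 0 < ρ' := lt_min (lt_min (by linarith [hH1.2.2.1]) (by linarith [hH2.2.2.1]))
    (by linarith)
  obtain ⟨b2, hb2, hb2', hb2''⟩ := acc_right hK.2.2.1 hH1 hρ'0
  obtain ⟨g1, g2, hG, hg1, hg2⟩ := gap_between hK hH1.2.1 hb2 hb2'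
  have e1 : ρ' ≤ q1 - la := (min_le_left _ _).trans (min_le_left _ _)
  have e2 : ρ' ≤ rb - p2 := (min_le_left _ _).trans (min_le_right _ _)
  have e3 : ρ' ≤ p2 - q1 := min_le_right _ _
  have e4 : ρ ≤ r := min_le_left _ _
  have e5 : ρ ≤ δ := min_le_right _ _
  have hrb2 := hH2.2.2.1
  have hG2 := hG.2.2.1
  have hml : 0 < m * (1 - η) := mul_pos hd (by linarith)
  have hmu : 0 < m * (1 + η) := mul_pos hd (by linarith)
  -- the configuration for a base point `x ∈ {g1, g2}`
  have cfg : ∀ x : ℝ, g1 ≤ x → x ≤ g2 →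
      Agent.X105.Thick.Cfg K (fun a => x + f (x - a)) c (m * (1 - η)) (m * (1 + η))
        la q1 g1 g2 p2 rb := by
    intro x hx1 hx2
    refine ⟨hK.2.1.isClosed, hc1, hml, hmu, ?_, hthick, hH1, hG, hH2, hg1, by linarith,
      by linarith, by linarith, ?_, ?_⟩
    · rw [mul_assoc]
      exact mul_lt_mul_of_pos_left hηc2 hd
    · intro s t hs hst ht
      have := (hbd (x - t) (x - s) (by linarith) (by linarith) (by linarith)).1
      have e : x - s - (x - t) = t - s := by ring
      rw [e] at this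
      linarith
    · intro s t hs hst ht
      have := (hbd (x - t) (x - s) (by linarith) (by linarith) (by linarith)).2
      have e : x - s - (x - t) = t - s := by ring
      rw [e] at this
      linarith
  -- a solution of the equation gives a pattern
  have fin : ∀ x : ℝ, x ∈ K → g1 ≤ x → x ≤ g2 → (∀ a ∈ K, q1 ≤ a → a ≤ g1 → g2 ≤ x + f (x - a) →
      x + f (x - a) ≤ p2 → x + f (x - a) ∈ K → a < x) →
      ¬ (∀ a ∈ K, q1 ≤ a → a ≤ g1 → g2 ≤ x + f (x - a) → x + f (x - a) ≤ p2 →
        x + f (x - a) ∉ K) →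
      ∃ x t : ℝ, 0 < t ∧ t < δ ∧ 0 < f t ∧ x - t ∈ K ∧ x ∈ K ∧ x + f t ∈ K := by
    intro x hxK hx1 hx2 hlt hno
    push Not at hno
    obtain ⟨a, haK, h1, h2, h3, h4, h5⟩ := hno
    have hax := hlt a haK h1 h2 h3 h4 h5
    refine ⟨x, x - a, by linarith, by linarith, ?_, by simpa using haK, hxK, h5⟩
    have := (hbd 0 (x - a) le_rfl (by linarith) (by linarith)).1
    rw [f0] at this
    have h6 : 0 < m * (1 - η) * (x - a - 0) := mul_pos hml (by linarith)
    linarith
  by_cases hm1 : 1 ≤ m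
  · apply fin g1 hG.1 le_rfl hG2.le
    · intro a haK h1 h2 h3 h4 h5
      rcases h2.lt_or_eq with h | h
      · exact h
      · rw [h, sub_self, f0] at h3
        linarith
    · intro hno
      refine (cfg g1 le_rfl hG2.le).startA (by simp [f0]) ?_ hno
      have h1 : (1 - η) * c ≤ m * ((1 - η) * c) := le_mul_of_one_le_left (by linarith) hm1
      linarith
  · push Not at hm1
    apply fin g2 hG.2.1 hG2.le le_rfl
    · intro a haK h1 h2 h3 h4 h5
      linarith
    · intro hno
      have h1 := hbd 0 (g2 - g1) le_rfl (by linarith) (by linarith)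
      rw [f0] at h1
      have h2 : 0 < m * (1 - η) * (g2 - g1 - 0) := mul_pos hml (by linarith)
      refine (cfg g2 hG2.le le_rfl).startB ?_ ?_ ?_ hno
      · linarith
      · have e : g2 - g1 - 0 = g2 - g1 := by ring
        rw [e] at h1
        linarith [h1.2]
      · have : m * (1 + η) ≤ 1 * (1 + η) := mul_le_mul_of_nonneg_right hm1.le (by linarith)
        linarith

theorem thickness_eq {K : Set ℝ}
    (hinj : ∀ p q p' q', IsGap K p q → IsGap K p' q' → q - p = q' - p' → p = p') :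
    thickness' K = thickness K := by
  have hR : ∀ p q, IsGap K p q → rightBridge' K p q = rightBridge K p q := by
    intro p q hg
    unfold rightBridge rightBridge'
    congr 2
    ext v
    simp only [mem_ofPred_eq]
    refine and_congr_right fun _ => and_congr_right fun _ => ?_
    constructor
    · intro h p' q' hg' h1 h2
      refine lt_of_le_of_ne (h p' q' hg' h1 h2) fun e => ?_
      have := hinj p q p' q' hg hg' e.symm
      linarith [hg.2.2.1]
    · intro h p' q' hg' h1 h2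
      exact (h p' q' hg' h1 h2).le
  have hL : ∀ p q, IsGap K p q → leftBridge' K p q = leftBridge K p q := by
    intro p q hg
    unfold leftBridge leftBridge'
    congr 2
    ext v
    simp only [mem_ofPred_eq]
    refine and_congr_right fun _ => and_congr_right fun _ => ?_
    constructor
    · intro h p' q' hg' h1 h2
      refine lt_of_le_of_ne (h p' q' hg' h1 h2) fun e => ?_
      have := hinj p q p' q' hg hg' e.symm
      linarith [hg'.2.2.1]
    · intro h p' q' hg' h1 h2
      exact (h p' q' hg' h1 h2).le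
  unfold thickness thickness'
  congr 1
  ext τ
  simp only [mem_ofPred_eq]
  constructor
  · rintro ⟨p, q, hg, h⟩
    refine ⟨p, q, hg, ?_⟩
    rwa [hR p q hg, hL p q hg] at h
  · rintro ⟨p, q, hg, h⟩
    refine ⟨p, q, hg, ?_⟩
    rwa [hR p q hg, hL p q hg]

/-- Q1 of MP_4ff6b6_an. Let `K` be a Cantor set of Newhouse thickness greater than one and `f` a
`C¹` function with `f 0 = 0` and `f' (0) > 0`. Then `K` contains `{x - t, x, x + f t}` for some
`x` and arbitrarily small `t > 0`. (No condition on the size of `f' (0)`.) The second statement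
is the same for the variant of the thickness in which a bridge may run over gaps of the same
length, for Cantor sets without two gaps of the same length. -/
theorem result :
    (∀ K : Set ℝ, IsCantor K → 1 < thickness K → ∀ f : ℝ → ℝ, ContDiff ℝ 1 f → f 0 = 0 →
      0 < deriv f 0 → HasPatterns K f) ∧
    (∀ K : Set ℝ, IsCantor K →
      (∀ p q p' q', IsGap K p q → IsGap K p' q' → q - p = q' - p' → p = p') →
      1 < thickness' K → ∀ f : ℝ → ℝ, ContDiff ℝ 1 f → f 0 = 0 →
      0 < deriv f 0 → HasPatterns K f) :=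
  ⟨fun _ hK hτ _ hf f0 hd => main hK hτ hf f0 hd,
    fun _ hK hinj hτ _ hf f0 hd => main hK (by rwa [thickness_eq hinj] at hτ) hf f0 hd⟩

end Pool.Agent.Results.MP_4ff6b6_an.NonlinearPatterns
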